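import Pool.Agent.H10.LDV.Stmts
import Pool.Agent.H71.BL.CTL

/-!
LDV: RTL, the real place
-/

set_option autoImplicit false

namespace Pool.LDV

open Finset Pool.Agent.H98.ABCR Pool.SHA Pool.BL Pool.RIC.H71R

namespace RTL36

/-- integers whose `e`-th powers lie in a short interval -/
theorem fib {X d p : ℝ} (hX : 1 ≤ X) (e B n : ℕ) (he : 1 ≤ e)
    (hB : 0 < B) (W : Finset ℕ)
    (hW : ∀ w ∈ W, 1 ≤ w ∧ (w : ℝ) ≤ X ^ p ∧ |((B * w ^ e : ℕ) : ℝ) - n| * X ^ d ≤ n) :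
    (W.card : ℝ) ≤ 5 * X ^ (max 0 (p - d)) := by
  have hX0 : (0 : ℝ) < X := by linarith
  have hone : (1 : ℝ) ≤ X ^ (max 0 (p - d)) := Real.one_le_rpow hX (le_max_left _ _)
  have hpd : X ^ (p - d) ≤ X ^ (max 0 (p - d)) :=
    Real.rpow_le_rpow_of_exponent_le hX (le_max_right _ _)
  have hXd : 0 < X ^ d := Real.rpow_pos_of_pos hX0 d
  have hsub : X ^ (p - d) = X ^ p / X ^ d := Real.rpow_sub hX0 p d
  rcases W.eq_empty_or_nonempty with rfl | hne
  · simp
    positivity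
  by_cases hd2 : X ^ d ≤ 2
  · -- the trivial bound
    have h1 : W ⊆ Icc 1 ⌊X ^ p⌋₊ := fun w hw => by
      obtain ⟨h1, h2, -⟩ := hW w hw
      exact mem_Icc.2 ⟨h1, Nat.le_floor h2⟩
    have h2 : (W.card : ℝ) ≤ X ^ p := by
      have h3 := Finset.card_le_card h1
      rw [Nat.card_Icc] at h3
      have h4 : (W.card : ℝ) ≤ (⌊X ^ p⌋₊ : ℝ) := by exact_mod_cast h3
      exact h4.trans (Nat.floor_le (by positivity))
    have h3 : X ^ p ≤ 2 * X ^ (p - d) := by
      rw [hsub, ← mul_div_assoc, le_div_iff₀ hXd]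
      have : 0 < X ^ p := Real.rpow_pos_of_pos hX0 p
      nlinarith
    linarith
  · have hd3 : 2 < X ^ d := lt_of_not_ge hd2
    set m := W.min' hne with hm
    set M := W.max' hne with hM
    have hmM : m ≤ M := W.min'_le _ (W.max'_mem hne)
    have hcard : (W.card : ℝ) ≤ (M : ℝ) - m + 1 := by
      have h1 : W ⊆ Icc m M := fun w hw => mem_Icc.2 ⟨W.min'_le w hw, W.le_max' w hw⟩
      have h3 := Finset.card_le_card h1
      rw [Nat.card_Icc] at h3
      have h4 : (W.card : ℝ) ≤ ((M + 1 - m : ℕ) : ℝ) := by exact_mod_cast h3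
      rw [Nat.cast_sub (by omega)] at h4
      push_cast at h4
      linarith
    obtain ⟨m1, m2, m3⟩ := hW m (W.min'_mem hne)
    obtain ⟨-, -, M3⟩ := hW M (W.max'_mem hne)
    obtain ⟨f, rfl⟩ : ∃ f, e = f + 1 := ⟨e - 1, by omega⟩
    push_cast at m3 M3
    have hBr : (0 : ℝ) < B := by exact_mod_cast hB
    have hmr : (1 : ℝ) ≤ m := by exact_mod_cast m1
    have hmMr : (m : ℝ) ≤ M := by exact_mod_cast hmM
    have hn0 : (0 : ℝ) ≤ n := Nat.cast_nonneg _
    set D := X ^ d with hD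
    -- the interval
    have e1 : (n : ℝ) * (D - 1) ≤ B * (m : ℝ) ^ (f + 1) * D := by
      have h := neg_abs_le ((B : ℝ) * (m : ℝ) ^ (f + 1) - n)
      nlinarith
    have e2 : B * (M : ℝ) ^ (f + 1) * D ≤ n * (D + 1) := by
      have h := le_abs_self ((B : ℝ) * (M : ℝ) ^ (f + 1) - n)
      nlinarith
    have e3 : (M : ℝ) * (m : ℝ) ^ f ≤ (M : ℝ) ^ (f + 1) := by
      rw [pow_succ, mul_comm]
      exact mul_le_mul_of_nonneg_right (pow_le_pow_left₀ (by linarith) hmMr f) (by linarith)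
    have hmf : (0 : ℝ) < (m : ℝ) ^ f := by positivity
    -- `(D - 1) M ≤ (D + 1) m`
    have e4 : (D - 1) * M ≤ (D + 1) * m := by
      have hc : 0 < B * (m : ℝ) ^ f * D := by positivity
      have h1 : B * (m : ℝ) ^ f * D * ((D - 1) * M) ≤ B * (m : ℝ) ^ f * D * ((D + 1) * m) := by
        calc B * (m : ℝ) ^ f * D * ((D - 1) * M) = (B * ((M : ℝ) * (m : ℝ) ^ f) * D) * (D - 1) := by
              ring
          _ ≤ (B * (M : ℝ) ^ (f + 1) * D) * (D - 1) := by
              refine mul_le_mul_of_nonneg_right ?_ (by linarith)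
              exact mul_le_mul_of_nonneg_right (mul_le_mul_of_nonneg_left e3 hBr.le) hXd.le
          _ ≤ (n * (D + 1)) * (D - 1) := mul_le_mul_of_nonneg_right e2 (by linarith)
          _ = (n * (D - 1)) * (D + 1) := by ring
          _ ≤ (B * (m : ℝ) ^ (f + 1) * D) * (D + 1) :=
              mul_le_mul_of_nonneg_right e1 (by linarith)
          _ = _ := by ring
      exact le_of_mul_le_mul_left h1 hc
    have e5 : (M : ℝ) - m ≤ 4 * X ^ (p - d) := by
      rw [hsub, ← mul_div_assoc, le_div_iff₀ hXd]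
      have h1 : ((M : ℝ) - m) * (D - 1) ≤ 2 * m := by linarith
      have h2 : ((M : ℝ) - m) * D ≤ ((M : ℝ) - m) * (2 * (D - 1)) :=
        mul_le_mul_of_nonneg_left (by linarith) (by linarith)
      linarith
    linarith

theorem absco {a k l : Fin 3} (ha : a ≠ 2) (hak : a ≠ k) (hal : a ≠ l) (hkl : k ≠ l)
    (v : ℕ × ℕ) : |((coord v l : ℕ) : ℝ) - (coord v k : ℕ)| = coord v a := by
  have h0 : coord v 0 = v.1 := rfl
  have h1 : coord v 1 = v.2 := rfl
  have h2 : coord v 2 = v.1 + v.2 := rfl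
  have p1 : (0 : ℝ) ≤ v.1 := Nat.cast_nonneg _
  have p2 : (0 : ℝ) ≤ v.2 := Nat.cast_nonneg _
  have hall : ∀ a k l : Fin 3, a ≠ 2 → a ≠ k → a ≠ l → k ≠ l →
      (a = 0 ∧ k = 1 ∧ l = 2) ∨ (a = 0 ∧ k = 2 ∧ l = 1) ∨ (a = 1 ∧ k = 0 ∧ l = 2) ∨
      (a = 1 ∧ k = 2 ∧ l = 0) := by decide
  rcases hall a k l ha hak hal hkl with ⟨rfl, rfl, rfl⟩ | ⟨rfl, rfl, rfl⟩ | ⟨rfl, rfl, rfl⟩ |
    ⟨rfl, rfl, rfl⟩ <;> rw [h0, h1, h2] <;> push_cast
  · rw [add_sub_cancel_right, abs_of_nonneg p1]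
  · rw [abs_of_nonpos (by linarith)]; ring
  · rw [add_sub_cancel_left, abs_of_nonneg p2]
  · rw [abs_of_nonpos (by linarith)]; ring

theorem codet {k l : Fin 3} (hkl : k ≠ l) (v v' : ℕ × ℕ) (h1 : coord v k = coord v' k)
    (h2 : coord v l = coord v' l) : v = v' := by
  have g0 : ∀ w : ℕ × ℕ, coord w 0 = w.1 := fun _ => rfl
  have g1 : ∀ w : ℕ × ℕ, coord w 1 = w.2 := fun _ => rfl
  have g2 : ∀ w : ℕ × ℕ, coord w 2 = w.1 + w.2 := fun _ => rfl
  have hall : ∀ k l : Fin 3, k ≠ l →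
      (k = 0 ∧ l = 1) ∨ (k = 0 ∧ l = 2) ∨ (k = 1 ∧ l = 0) ∨ (k = 1 ∧ l = 2) ∨
      (k = 2 ∧ l = 0) ∨ (k = 2 ∧ l = 1) := by decide
  rcases hall k l hkl with ⟨rfl, rfl⟩ | ⟨rfl, rfl⟩ | ⟨rfl, rfl⟩ | ⟨rfl, rfl⟩ | ⟨rfl, rfl⟩ |
    ⟨rfl, rfl⟩ <;> simp only [g0, g1, g2] at h1 h2 <;> refine Prod.ext ?_ ?_ <;> omega

end RTL36

open RTL36

theorem rtl_thm (h2 : S_LAY) (h3 : Pool.RIC.S_CNT) : S_RTL := by
  classical
  intro J κ ε hκ hε
  obtain ⟨C1, hC1, hT⟩ := h3 κ (ε / 8) (by linarith) (by linarith)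
  refine ⟨C1 * C1 * 5, by nlinarith, ?_⟩
  intro X τ d F a k l e p hX hτ hd ha hak hal hkl he hp hF
  have hX0 : (0 : ℝ) < X := by linarith
  have he' := mem_Icc.1 he
  -- the coordinate `k`
  set T : Finset ℕ := F.image (fun v => coord v k) with hTdef
  have hTc : (T.card : ℝ) ≤ C1 * X ^ (ε / 8) * X ^ (τ + ∑ n ∈ Icc 1 J, p k n) := by
    refine hT X _ T hX (Real.one_le_rpow hX ?_) ?_
    · exact add_nonneg hτ (Finset.sum_nonneg fun e _ => (hp k e).1)
    intro n hn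
    obtain ⟨v, hv, rfl⟩ := Finset.mem_image.mp hn
    obtain ⟨T1, H, P, -⟩ := hF v hv
    have hpos := coord_pos T1 k
    refine ⟨hpos, CTL71.size hX T1 H k, ?_⟩
    obtain ⟨-, -, h3, -⟩ := h2 J (coord v k) hpos
    rw [h3, Nat.cast_mul, Nat.cast_prod, Real.rpow_add hX0, Real.rpow_sum_of_pos hX0]
    refine mul_le_mul (P k).1 ?_ (Finset.prod_nonneg fun e _ => Nat.cast_nonneg _) (by positivity)
    exact Finset.prod_le_prod (fun e _ => Nat.cast_nonneg _) fun e he => (P k).2 e he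
  -- the cofactors of the coordinate `l`
  set R : Finset ℕ := F.image (fun v => kp J ((Icc 1 J).erase e) (coord v l)) with hRdef
  have hRc : (R.card : ℝ) ≤
      C1 * X ^ (ε / 8) * X ^ (τ + (∑ n ∈ Icc 1 J, p l n - p l e)) := by
    have hsum : ∑ n ∈ (Icc 1 J).erase e, p l n = ∑ n ∈ Icc 1 J, p l n - p l e := by
      rw [← Finset.add_sum_erase _ _ he]
      ring
    rw [← hsum]
    refine hT X _ _ hX (Real.one_le_rpow hX ?_) ?_
    · exact add_nonneg hτ (Finset.sum_nonneg fun e _ => (hp l e).1)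
    intro n hn
    obtain ⟨v, hv, rfl⟩ := Finset.mem_image.mp hn
    obtain ⟨T1, H, P, -⟩ := hF v hv
    have hpos := coord_pos T1 l
    obtain ⟨-, -, -, hdd, -⟩ := h2 J (coord v l) hpos
    obtain ⟨hd1, hd2⟩ := hdd ((Icc 1 J).erase e) (Finset.erase_subset _ _)
    have hle : kp J ((Icc 1 J).erase e) (coord v l) ≤ coord v l := Nat.le_of_dvd hpos hd1
    refine ⟨Nat.pos_of_dvd_of_pos hd1 hpos, ?_, ?_⟩
    · exact le_trans (by exact_mod_cast hle) (CTL71.size hX T1 H l)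
    · rw [hd2, Nat.cast_mul, Nat.cast_prod, Real.rpow_add hX0, Real.rpow_sum_of_pos hX0]
      refine mul_le_mul (P l).1 ?_ (Finset.prod_nonneg fun e _ => Nat.cast_nonneg _)
        (by positivity)
      exact Finset.prod_le_prod (fun e _ => Nat.cast_nonneg _)
        fun e he => (P l).2 e (Finset.mem_of_mem_erase he)
  have hmaps : Set.MapsTo (fun v => (coord v k, kp J ((Icc 1 J).erase e) (coord v l)))
      (F : Set (ℕ × ℕ)) ((T ×ˢ R : Finset (ℕ × ℕ)) : Set (ℕ × ℕ)) := by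
    intro v hv
    exact Finset.mem_coe.2 (Finset.mem_product.2
      ⟨Finset.mem_image_of_mem _ (Finset.mem_coe.1 hv),
        Finset.mem_image_of_mem _ (Finset.mem_coe.1 hv)⟩)
  set b : ℝ := 5 * X ^ (max 0 (p l e - d)) with hb
  have hb0 : 0 ≤ b := by rw [hb]; positivity
  have hfib : ∀ q ∈ T ×ˢ R, (((F.filter (fun v =>
      (coord v k, kp J ((Icc 1 J).erase e) (coord v l)) = q)).card : ℕ) : ℝ) ≤ b := by
    rintro ⟨n, B⟩ -
    set G := F.filter (fun v =>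
      (coord v k, kp J ((Icc 1 J).erase e) (coord v l)) = (n, B)) with hG
    rcases G.eq_empty_or_nonempty with hne | ⟨v0, hv0⟩
    · rw [hne]
      simpa using hb0
    have hGm : ∀ v ∈ G, v ∈ F ∧ coord v k = n ∧ kp J ((Icc 1 J).erase e) (coord v l) = B := by
      intro v hv
      rw [hG, mem_filter, Prod.mk.injEq] at hv
      exact ⟨hv.1, hv.2.1, hv.2.2⟩
    have hBpos : 0 < B := by
      obtain ⟨h4, -, h5⟩ := hGm v0 hv0
      obtain ⟨T1, -, -, -⟩ := hF v0 h4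
      obtain ⟨-, -, -, hdd, -⟩ := h2 J (coord v0 l) (coord_pos T1 l)
      rw [← h5]
      exact Nat.pos_of_dvd_of_pos (hdd _ (Finset.erase_subset _ _)).1 (coord_pos T1 l)
    have hprod : ∀ v ∈ G, B * lay (coord v l) e ^ e = coord v l := by
      intro v hv
      obtain ⟨h4, -, h5⟩ := hGm v hv
      obtain ⟨T1, -, -, -⟩ := hF v h4
      obtain ⟨-, -, -, -, h6⟩ := h2 J (coord v l) (coord_pos T1 l)
      rw [← h5]
      exact (h6 e).2.2.2 he
    have hcardG : G.card = (G.image (fun v => lay (coord v l) e)).card := by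
      rw [Finset.card_image_of_injOn]
      intro v hv v' hv' h
      have hv := Finset.mem_coe.1 hv
      have hv' := Finset.mem_coe.1 hv'
      have h7 : lay (coord v l) e = lay (coord v' l) e := h
      refine codet hkl v v' ?_ ?_
      · rw [(hGm v hv).2.1, (hGm v' hv').2.1]
      · rw [← hprod v hv, ← hprod v' hv', h7]
    rw [hcardG, hb]
    refine fib hX e B n he'.1 hBpos _ ?_
    intro w hw
    obtain ⟨v, hv, rfl⟩ := Finset.mem_image.mp hw
    obtain ⟨h4, h4', -⟩ := hGm v hv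
    obtain ⟨T1, -, P, hsm⟩ := hF v h4
    obtain ⟨-, -, -, -, h6⟩ := h2 J (coord v l) (coord_pos T1 l)
    refine ⟨(h6 e).1, (P l).2 e he, ?_⟩
    rw [hprod v hv, ← h4', absco ha hak hal hkl v]
    exact hsm
  have hsum : (F.card : ℝ) ≤ (T.card * R.card) * b := by
    rw [Finset.card_eq_sum_card_fiberwise hmaps]
    push_cast
    calc ∑ q ∈ T ×ˢ R, ((F.filter (fun v =>
          (coord v k, kp J ((Icc 1 J).erase e) (coord v l)) = q)).card : ℝ)
        ≤ ∑ _q ∈ T ×ˢ R, b := Finset.sum_le_sum hfib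
      _ = _ := by rw [Finset.sum_const, nsmul_eq_mul, Finset.card_product, Nat.cast_mul]
  refine hsum.trans ((mul_le_mul_of_nonneg_right (mul_le_mul hTc hRc (Nat.cast_nonneg _)
    (by positivity)) hb0).trans ?_)
  have key : ∀ a b c d g : ℝ, C1 * X ^ a * X ^ b * (C1 * X ^ c * X ^ d) *
      (5 * X ^ g) = C1 * C1 * 5 * X ^ (a + b + c + d + g) := by
    intro a b c d g
    rw [Real.rpow_add hX0, Real.rpow_add hX0, Real.rpow_add hX0, Real.rpow_add hX0]
    ring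
  rw [hb, key]
  refine mul_le_mul_of_nonneg_left (Real.rpow_le_rpow_of_exponent_le hX ?_) (by positivity)
  linarith

end Pool.LDV
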